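import Mathlib

/-!
# Complete graphs on at least 21 vertices are not weakly contractible

Let `H` be the Petersen graph.  On the vertex set `V(H) × {0, 1}` join `(u, 0)` to `(w, 1)` and
`(u, 1)` to `(w, 1)` for each edge `uw` of `H`.  With the roots `(u, 0)` the paths
`(u, 0), (w, 1), (u, 1), (w, 0)` form an `H`-scheme, because the non-root `(u, 1)` lies on the
path of the edge `e` only if `u ∈ e`.  There is no rooted `H`-minor: `H` is cubic, without
triangles and 4-cycles, connected and not bipartite, and a count excludes all possible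
distributions of the ten non-roots.  Adding `n - 10` further roots and all the edges between
roots that are not edges of `H`, one obtains a graph with a `K_n`-scheme; if `n ≥ 21`, then each
of the `n` branch sets of a `K_n`-minor contains exactly one root, which gives a rooted
`H`-minor in the above graph.
-/

namespace Pool.Agent.Results.MP_ed45fc_co.LargeCompleteGraphs

open Finset

/-- An `H`-scheme in `G`, where `V(H)` is regarded as a subset of `V(G)` through the embedding
`ι`: a family of paths `P u v` from `u` to `v`, one for each edge `uv` of `H` (read backwards for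
`vu`), meeting `V(H)` only in `u` and `v`, such that any nonempty set of edges whose paths have
a common vertex has a common end. -/
def HasScheme {V W : Type*} (H : SimpleGraph V) (G : SimpleGraph W) (ι : V ↪ W) : Prop :=
  ∃ P : (u v : V) → H.Adj u v → G.Walk (ι u) (ι v),
    (∀ u v (h : H.Adj u v), P v u h.symm = (P u v h).reverse) ∧
    (∀ u v (h : H.Adj u v), (P u v h).IsPath ∧
      ∀ x : V, ι x ∈ (P u v h).support ↔ x = u ∨ x = v) ∧
    ∀ F : Set (Sym2 V), F ⊆ H.edgeSet → F.Nonempty →
      (∃ y : W, ∀ u v (h : H.Adj u v), s(u, v) ∈ F → y ∈ (P u v h).support) →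
      ∃ x : V, ∀ e ∈ F, x ∈ e

/-- `G` has an `H`-minor: pairwise vertex-disjoint connected subgraphs `C v` of `G`, `v ∈ V(H)`,
such that for each edge `uv` of `H` some edge of `G` joins `C u` and `C v`. -/
def HasMinor {V W : Type*} (H : SimpleGraph V) (G : SimpleGraph W) : Prop :=
  ∃ C : V → G.Subgraph, (∀ v, (C v).Connected) ∧
    (∀ u v, u ≠ v → Disjoint (C u).verts (C v).verts) ∧
    ∀ u v, H.Adj u v → ∃ x ∈ (C u).verts, ∃ y ∈ (C v).verts, G.Adj x y

/-- `H` is weakly contractible: each finite graph that contains an `H`-scheme has an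
`H`-minor. -/
def WeaklyContractible {V : Type*} (H : SimpleGraph V) : Prop :=
  ∀ (W : Type) [Finite W] (G : SimpleGraph W) (ι : V ↪ W), HasScheme H G ι → HasMinor H G

/-! ### The Petersen graph -/

/-- The Petersen graph, by a table of bit masks. -/
def petF (a b : Fin 10) : Bool :=
  ((![50, 69, 138, 276, 521, 385, 770, 548, 104, 208] : Fin 10 → ℕ) a).testBit b

theorem petF_symm : ∀ a b, petF a b = true → petF b a = true := by decide

theorem petF_irrefl : ∀ a, petF a a = false := by decide

theorem petF_card : ∀ a, (univ.filter (fun b => petF a b = true)).card = 3 := by decide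

theorem petF_tri : ∀ a b, petF a b = true → ∀ c, petF b c = true → petF a c = false := by
  decide

theorem petF_quad : ∀ a b, petF a b = true → ∀ c, petF b c = true → ∀ d, petF c d = true →
    petF d a = true → a = c ∨ b = d := by decide

/-- A closed walk of length five through each vertex. -/
def nxt : Fin 10 → Fin 10 := ![1, 2, 3, 4, 0, 7, 8, 9, 5, 6]

theorem nxt_adj : ∀ a, petF a (nxt a) = true := by decide

theorem nxt_five : ∀ a, nxt (nxt (nxt (nxt (nxt a)))) = a := by decide

/-- There is no assignment of disjoint sets of non-roots to the ten roots that gives a rooted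
Petersen minor. -/
theorem core (S : Fin 10 → Finset (Fin 10)) (hd : ∀ u v, u ≠ v → Disjoint (S u) (S v))
    (ha : ∀ x, (S x).Nonempty → ∃ s ∈ S x, petF x s = true)
    (hb : ∀ v w, petF v w = true → (∃ s ∈ S w, petF v s = true) ∨
      (∃ s ∈ S v, petF w s = true) ∨ ∃ s ∈ S v, ∃ t ∈ S w, petF s t = true) : False := by
  have hsum : ∑ v, (S v).card ≤ 10 := by
    have h1 : (univ.biUnion S).card = ∑ v, (S v).card :=
      card_biUnion (fun u _ v _ huv => hd u v huv)
    rw [← h1]
    exact (card_le_univ _).trans (by simp)
  set Z : Finset (Fin 10) := univ.filter (fun v => S v = ∅) with hZ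
  set N : Finset (Fin 10) := univ.filter (fun w => ∃ v, S v = ∅ ∧ petF v w = true) with hN
  rcases Z.eq_empty_or_nonempty with hZe | ⟨z, hz⟩
  · -- all sets are singletons
    have hne : ∀ v, (S v).Nonempty := by
      intro v
      rw [nonempty_iff_ne_empty]
      intro h
      have : v ∈ Z := by simp [hZ, h]
      rw [hZe] at this
      simp at this
    have hone : ∀ v, (S v).card = 1 := by
      have h1 : ∀ v ∈ (univ : Finset (Fin 10)), 1 ≤ (S v).card := fun v _ => (hne v).card_pos
      have h2 : ∑ v : Fin 10, 1 = ∑ v, (S v).card := by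
        apply le_antisymm (sum_le_sum h1)
        refine hsum.trans (by simp)
      have h3 := (sum_eq_sum_iff_of_le h1).1 h2
      exact fun v => (h3 v (mem_univ v)).symm
    have hex : ∀ v, ∃ s, S v = {s} := fun v => card_eq_one.1 (hone v)
    choose s hs using hex
    have hadj : ∀ v, petF v (s v) = true := by
      intro v
      obtain ⟨t, ht, h⟩ := ha v (hne v)
      rw [hs v, mem_singleton] at ht
      rwa [ht] at h
    have hcov : ∀ v w, petF v w = true → s w = v ∨ s v = w := by
      intro v w hvw
      rcases hb v w hvw with ⟨t, ht, h⟩ | ⟨t, ht, h⟩ | ⟨t, ht, t', ht', h⟩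
      · rw [hs w, mem_singleton] at ht
        subst ht
        have := petF_tri v w hvw _ (hadj w)
        rw [this] at h
        simp at h
      · rw [hs v, mem_singleton] at ht
        subst ht
        have := petF_tri w v (petF_symm _ _ hvw) _ (hadj v)
        rw [this] at h
        simp at h
      · rw [hs v, mem_singleton] at ht
        rw [hs w, mem_singleton] at ht'
        subst ht
        subst ht'
        -- v w (s w) (s v)
        rcases petF_quad v w hvw _ (hadj w) _ (petF_symm _ _ h) (petF_symm _ _ (hadj v)) with
          h' | h'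
        · exact Or.inl h'.symm
        · exact Or.inr h'.symm
    have hcount : (univ.filter (fun p : Fin 10 × Fin 10 => petF p.1 p.2 = true)).card ≤ 20 := by
      have hsub : univ.filter (fun p : Fin 10 × Fin 10 => petF p.1 p.2 = true) ⊆
          univ.image (fun v => (v, s v)) ∪ univ.image (fun v => (s v, v)) := by
        rintro ⟨v, w⟩ hp
        simp only [mem_filter, mem_univ, true_and] at hp
        rw [mem_union, mem_image, mem_image]
        rcases hcov v w hp with h | h
        · exact Or.inr ⟨w, mem_univ _, by rw [h]⟩
        · exact Or.inl ⟨v, mem_univ _, by rw [h]⟩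
      refine (card_le_card hsub).trans ((card_union_le _ _).trans ?_)
      have h1 := card_image_le (s := (univ : Finset (Fin 10))) (f := fun v => (v, s v))
      have h2 := card_image_le (s := (univ : Finset (Fin 10))) (f := fun v => (s v, v))
      simp only [card_univ, Fintype.card_fin] at h1 h2
      omega
    have h30 : (univ.filter (fun p : Fin 10 × Fin 10 => petF p.1 p.2 = true)).card = 30 := by
      decide
    omega
  · -- some set is empty
    have hZN : Disjoint Z N := by
      rw [disjoint_left]
      intro v hv hv'
      simp only [hZ, mem_filter, mem_univ, true_and] at hv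
      simp only [hN, mem_filter, mem_univ, true_and] at hv'
      obtain ⟨u, hu, huv⟩ := hv'
      rcases hb u v huv with ⟨t, ht, _⟩ | ⟨t, ht, _⟩ | ⟨t, ht, _⟩
      · rw [hv] at ht; simp at ht
      · rw [hu] at ht; simp at ht
      · rw [hu] at ht; simp at ht
    have htwo : ∀ w ∈ N, 2 ≤ (S w).card := by
      intro w hw
      simp only [hN, mem_filter, mem_univ, true_and] at hw
      obtain ⟨v, hv, hvw⟩ := hw
      have hs : ∃ s ∈ S w, petF v s = true := by
        rcases hb v w hvw with h | ⟨t, ht, _⟩ | ⟨t, ht, _⟩
        · exact h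
        · rw [hv] at ht; simp at ht
        · rw [hv] at ht; simp at ht
      obtain ⟨s, hs, hvs⟩ := hs
      obtain ⟨t, ht, hwt⟩ := ha w ⟨s, hs⟩
      have hst : s ≠ t := by
        rintro rfl
        have := petF_tri v w hvw s hwt
        rw [this] at hvs
        simp at hvs
      exact one_lt_card.2 ⟨s, hs, t, ht, hst⟩
    have hNZ : N.card ≤ Z.card := by
      have h1 : ∑ v, (S v).card ≥ ∑ v, (1 + (if v ∈ N then 1 else 0) - (if v ∈ Z then 1 else 0)) := by
        apply sum_le_sum
        intro v _
        by_cases hvZ : v ∈ Z
        · have : v ∉ N := disjoint_left.1 hZN hvZ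
          simp [hvZ, this]
        · have hvne : (S v).Nonempty := by
            rw [nonempty_iff_ne_empty]
            intro h
            exact hvZ (by simp [hZ, h])
          by_cases hvN : v ∈ N
          · have := htwo v hvN
            simp only [hvN, hvZ, if_true, if_false]
            omega
          · have := hvne.card_pos
            simp only [hvN, hvZ, if_false]
            omega
      have h2 : ∑ v : Fin 10, (1 + (if v ∈ N then 1 else 0) - (if v ∈ Z then 1 else 0)) +
          ∑ v : Fin 10, (if v ∈ Z then 1 else 0) =
          ∑ v : Fin 10, (1 + (if v ∈ N then 1 else 0)) := by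
        rw [← sum_add_distrib]
        apply sum_congr rfl
        intro v _
        have : (if v ∈ Z then 1 else 0) ≤ 1 + (if v ∈ N then 1 else 0) := by
          split_ifs <;> omega
        omega
      rw [sum_add_distrib] at h2
      simp only [sum_boole, sum_const, card_univ, Fintype.card_fin, smul_eq_mul, mul_one,
        Nat.cast_id, filter_mem_eq_inter, univ_inter] at h2
      omega
    -- the neighbours of vertices of `N` are in `Z`
    have hback : ∀ v w, w ∈ N → petF v w = true → v ∈ Z := by
      set E1 := univ.filter (fun p : Fin 10 × Fin 10 => p.1 ∈ Z ∧ petF p.1 p.2 = true) with hE1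
      set E2 := univ.filter (fun p : Fin 10 × Fin 10 => p.2 ∈ N ∧ petF p.1 p.2 = true) with hE2
      have hsub : E1 ⊆ E2 := by
        rintro ⟨v, w⟩ hp
        simp only [hE1, hZ, mem_filter, mem_univ, true_and] at hp
        simp only [hE2, hN, mem_filter, mem_univ, true_and]
        exact ⟨⟨v, hp.1, hp.2⟩, hp.2⟩
      have hc1 : E1.card = 3 * Z.card := by
        have : E1 = Z.biUnion (fun v => (univ.filter (fun w => petF v w = true)).image
            (fun w => (v, w))) := by
          ext ⟨v, w⟩
          simp only [hE1, mem_filter, mem_univ, true_and, mem_biUnion, mem_image, Prod.mk.injEq]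
          constructor
          · rintro ⟨h1, h2⟩
            exact ⟨v, h1, w, h2, rfl, rfl⟩
          · rintro ⟨a, h1, b, h2, rfl, rfl⟩
            exact ⟨h1, h2⟩
        rw [this, card_biUnion]
        · rw [sum_congr rfl (g := fun _ => 3)]
          · rw [sum_const, smul_eq_mul, mul_comm]
          · intro v _
            rw [card_image_of_injective _ (fun a b h => (Prod.mk.inj h).2), petF_card]
        · intro a _ b _ hab
          rw [Function.onFun, disjoint_left]
          rintro p hp hp'
          rw [mem_image] at hp hp'
          obtain ⟨_, _, rfl⟩ := hp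
          obtain ⟨_, _, h⟩ := hp'
          exact hab (Prod.mk.inj h).1.symm
      have hc2 : E2.card = 3 * N.card := by
        have : E2 = N.biUnion (fun w => (univ.filter (fun v => petF w v = true)).image
            (fun v => (v, w))) := by
          ext ⟨v, w⟩
          simp only [hE2, mem_filter, mem_univ, true_and, mem_biUnion, mem_image, Prod.mk.injEq]
          constructor
          · rintro ⟨h1, h2⟩
            exact ⟨w, h1, v, petF_symm _ _ h2, rfl, rfl⟩
          · rintro ⟨a, h1, b, h2, rfl, rfl⟩
            exact ⟨h1, petF_symm _ _ h2⟩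
        rw [this, card_biUnion]
        · rw [sum_congr rfl (g := fun _ => 3)]
          · rw [sum_const, smul_eq_mul, mul_comm]
          · intro v _
            rw [card_image_of_injective _ (fun a b h => (Prod.mk.inj h).1), petF_card]
        · intro a _ b _ hab
          rw [Function.onFun, disjoint_left]
          rintro p hp hp'
          rw [mem_image] at hp hp'
          obtain ⟨_, _, rfl⟩ := hp
          obtain ⟨_, _, h⟩ := hp'
          exact hab (Prod.mk.inj h).2.symm
      have heq : E1 = E2 := eq_of_subset_of_card_le hsub (by omega)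
      intro v w hw hvw
      have : (v, w) ∈ E1 := by
        rw [heq]
        simp only [hE2, mem_filter, mem_univ, true_and]
        exact ⟨hw, hvw⟩
      simp only [hE1, mem_filter, mem_univ, true_and] at this
      exact this.1
    have hfor : ∀ v w, v ∈ Z → petF v w = true → w ∈ N := by
      intro v w hv hvw
      simp only [hZ, mem_filter, mem_univ, true_and] at hv
      simp only [hN, mem_filter, mem_univ, true_and]
      exact ⟨v, hv, hvw⟩
    have h1 := hfor z _ hz (nxt_adj z)
    have h2 := hback _ _ h1 (petF_symm _ _ (nxt_adj (nxt z)))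
    have h3 := hfor _ _ h2 (nxt_adj _)
    have h4 := hback _ _ h3 (petF_symm _ _ (nxt_adj _))
    have h5 := hfor _ _ h4 (nxt_adj _)
    rw [nxt_five] at h5
    exact disjoint_left.1 hZN hz h5

/-- Adjacency in the Petersen graph, for natural numbers. -/
def pet (a b : ℕ) : Prop := ∃ (ha : a < 10) (hb : b < 10), petF ⟨a, ha⟩ ⟨b, hb⟩ = true

theorem pet_symm {a b : ℕ} : pet a b → pet b a := fun ⟨h1, h2, h⟩ => ⟨h2, h1, petF_symm _ _ h⟩

theorem pet_irrefl {a : ℕ} : ¬ pet a a := by
  rintro ⟨h1, _, h⟩
  rw [petF_irrefl] at h
  simp at h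

/-- The adjacency relation of the counterexample. -/
def gAdj (n : ℕ) : Fin n ⊕ Fin 10 → Fin n ⊕ Fin 10 → Prop
  | .inl x, .inl y => x ≠ y ∧ ¬ pet x y
  | .inl x, .inr w => pet x w
  | .inr w, .inl x => pet x w
  | .inr u, .inr w => pet u w

/-- The counterexample: a graph with `n + 10` vertices. -/
def gr (n : ℕ) : SimpleGraph (Fin n ⊕ Fin 10) where
  Adj := gAdj n
  symm := by
    constructor
    rintro (x | x) (y | y) h
    · exact ⟨h.1.symm, fun h' => h.2 (pet_symm h')⟩
    · exact h
    · exact h
    · exact pet_symm (a := x) (b := y) h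
  loopless := by
    constructor
    rintro (x | x) h
    · exact h.1 rfl
    · exact pet_irrefl h

/-- The embedding of the roots. -/
def emb (n : ℕ) : Fin n ↪ Fin n ⊕ Fin 10 := ⟨Sum.inl, Sum.inl_injective⟩

theorem adj1 {n : ℕ} {x y : Fin n} (h : pet x y) :
    (gr n).Adj (.inl x) (.inr ⟨y, h.2.1⟩) := h

theorem adj2 {n : ℕ} {x y : Fin n} (h : pet x y) :
    (gr n).Adj (.inr ⟨y, h.2.1⟩) (.inr ⟨x, h.1⟩) := pet_symm h

theorem adj3 {n : ℕ} {x y : Fin n} (h : pet x y) :
    (gr n).Adj (.inr ⟨x, h.1⟩) (.inl y) := pet_symm h

open Classical in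
/-- The paths of the scheme. -/
noncomputable def path (n : ℕ) (x y : Fin n) (h : x ≠ y) :
    (gr n).Walk (emb n x) (emb n y) :=
  if hp : pet x y then
    .cons (adj1 hp) (.cons (adj2 hp) (.cons (adj3 hp) .nil))
  else .cons (show (gr n).Adj (.inl x) (.inl y) from ⟨h, hp⟩) .nil

theorem hasScheme (n : ℕ) : HasScheme (⊤ : SimpleGraph (Fin n)) (gr n) (emb n) := by
  classical
  refine ⟨fun u v h => path n u v h.ne, ?_, ?_, ?_⟩
  · intro u v h
    by_cases hp : pet u v
    · have hp' : pet v u := pet_symm hp
      simp only [path, hp, hp', dif_pos]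
      rfl
    · have hp' : ¬ pet v u := fun h' => hp (pet_symm h')
      simp only [path, hp, hp', dif_neg, not_false_eq_true]
      rfl
  · intro u v h
    have huv : u ≠ v := h.ne
    by_cases hp : pet u v
    · simp only [path, hp, dif_pos]
      have h1 : (u : ℕ) ≠ v := fun h' => huv (Fin.ext h')
      constructor
      · rw [SimpleGraph.Walk.isPath_def]
        simp [emb, huv, h1.symm]
      · intro x
        simp [emb]
    · simp only [path, hp, dif_neg, not_false_eq_true]
      constructor
      · rw [SimpleGraph.Walk.isPath_def]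
        simp [emb, huv]
      · intro x
        simp [emb]
  · rintro F hF ⟨e₀, he₀⟩ ⟨y, hy⟩
    rcases y with x | w
    · refine ⟨x, ?_⟩
      intro e he
      induction e using Sym2.ind with
      | _ u v =>
        have huv : (⊤ : SimpleGraph (Fin n)).Adj u v := hF he
        have h1 := hy u v huv he
        have hne : u ≠ v := huv.ne
        by_cases hp : pet u v
        · simp only [path, hp, dif_pos] at h1
          simpa [emb] using h1
        · simp only [path, hp, dif_neg, not_false_eq_true] at h1
          simpa [emb] using h1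
    · have key : ∀ u v (huv : (⊤ : SimpleGraph (Fin n)).Adj u v), s(u, v) ∈ F →
          (w : ℕ) = u ∨ (w : ℕ) = v := by
        intro u v huv he
        have h1 := hy u v huv he
        have hne : u ≠ v := huv.ne
        by_cases hp : pet u v
        · simp only [path, hp, dif_pos] at h1
          simp only [emb, Function.Embedding.coeFn_mk, SimpleGraph.Walk.support_cons,
            SimpleGraph.Walk.support_nil, List.mem_cons, reduceCtorEq, Sum.inr.injEq,
            List.not_mem_nil, or_false, false_or] at h1
          rcases h1 with h1 | h1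
          · right; rw [h1]
          · left; rw [h1]
        · simp only [path, hp, dif_neg, not_false_eq_true] at h1
          simp [emb] at h1
      have hwn : (w : ℕ) < n := by
        induction e₀ using Sym2.ind with
        | _ u v =>
          rcases key u v (hF he₀) he₀ with h | h
          · rw [h]; exact u.2
          · rw [h]; exact v.2
      refine ⟨⟨w, hwn⟩, ?_⟩
      intro e he
      induction e using Sym2.ind with
      | _ u v =>
        rw [Sym2.mem_iff]
        rcases key u v (hF he) he with h | h
        · left; exact Fin.ext h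
        · right; exact Fin.ext h

/-- In a connected subgraph with two vertices each vertex has a neighbour. -/
theorem exists_nbr {W : Type*} {G : SimpleGraph W} (C : G.Subgraph) (hC : C.Connected) {a b : W}
    (ha : a ∈ C.verts) (hb : b ∈ C.verts) (hab : a ≠ b) : ∃ c ∈ C.verts, G.Adj a c := by
  have h := hC.coe.preconnected ⟨a, ha⟩ ⟨b, hb⟩
  obtain ⟨p⟩ := h
  cases p with
  | nil => exact absurd rfl hab
  | cons h p =>
    rename_i c
    exact ⟨c, c.2, h.adj_sub⟩

theorem not_minor (n : ℕ) (hn : 21 ≤ n) : ¬ HasMinor (⊤ : SimpleGraph (Fin n)) (gr n) := by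
  classical
  rintro ⟨C, hC, hdis, hadj⟩
  have hdis' : ∀ u v, ∀ x, x ∈ (C u).verts → x ∈ (C v).verts → u = v := by
    intro u v x hu hv
    by_contra h
    exact Set.disjoint_left.1 (hdis u v h) hu hv
  -- every branch set contains a root
  have hroot : ∀ i, ∃ x : Fin n, Sum.inl x ∈ (C i).verts := by
    intro i
    by_contra hno
    push Not at hno
    have hmem : ∀ j, ∃ y ∈ (C j).verts, (∃ w, y = Sum.inr w) ∨
        ∃ z : Fin n, (z : ℕ) < 10 ∧ y = Sum.inl z := by
      intro j
      by_cases hij : j = i
      · subst hij
        obtain ⟨⟨y, hy⟩⟩ := (hC j).coe.nonempty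
        refine ⟨y, hy, ?_⟩
        rcases y with y | y
        · exact absurd hy (hno y)
        · exact Or.inl ⟨y, rfl⟩
      · obtain ⟨x, hx, y, hy, hxy⟩ := hadj i j (by simpa using Ne.symm hij)
        refine ⟨y, hy, ?_⟩
        rcases x with x | x
        · exact absurd hx (hno x)
        · rcases y with y | y
          · exact Or.inr ⟨y, hxy.1, rfl⟩
          · exact Or.inl ⟨y, rfl⟩
    choose f hf1 hf2 using hmem
    have hinj : Function.Injective f := fun a b hab => hdis' a b (f a) (hf1 a) (hab ▸ hf1 b)
    have hrange : univ.image f ⊆ (univ : Finset (Fin 10)).image (Sum.inr : Fin 10 → Fin n ⊕ Fin 10) ∪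
        ((univ : Finset (Fin n)).filter (fun z : Fin n => (z : ℕ) < 10)).image Sum.inl := by
      intro y hy
      rw [mem_image] at hy
      obtain ⟨j, _, rfl⟩ := hy
      rw [mem_union, mem_image, mem_image]
      rcases hf2 j with ⟨w, hw⟩ | ⟨z, hz, hz'⟩
      · exact Or.inl ⟨w, mem_univ _, hw.symm⟩
      · exact Or.inr ⟨z, by simp [hz], hz'.symm⟩
    have hcard := card_le_card hrange
    rw [card_image_of_injective _ hinj, card_univ, Fintype.card_fin] at hcard
    have h1 : ((univ : Finset (Fin 10)).image (Sum.inr : Fin 10 → Fin n ⊕ Fin 10)).card ≤ 10 :=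
      card_image_le.trans (by simp)
    have h2 : (((univ : Finset (Fin n)).filter (fun z : Fin n => (z : ℕ) < 10)).image
        (Sum.inl : Fin n → Fin n ⊕ Fin 10)).card ≤ 10 := by
      refine card_image_le.trans ?_
      have : ((univ : Finset (Fin n)).filter (fun z : Fin n => (z : ℕ) < 10)).card ≤
          (range 10).card := by
        refine card_le_card_of_injOn (fun z : Fin n => (z : ℕ)) ?_ (fun a _ b _ h => Fin.ext h)
        intro z hz
        simpa using hz
      simpa using this
    have h3 := card_union_le ((univ : Finset (Fin 10)).image (Sum.inr : Fin 10 → Fin n ⊕ Fin 10))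
      (((univ : Finset (Fin n)).filter (fun z : Fin n => (z : ℕ) < 10)).image Sum.inl)
    omega
  choose r hr using hroot
  have hrinj : Function.Injective r := fun a b hab => hdis' a b _ (hr a) (hab ▸ hr b)
  have hrsurj : Function.Surjective r := Finite.surjective_of_injective hrinj
  -- the branch set of a root
  choose q hq using hrsurj
  have hqroot : ∀ x y : Fin n, Sum.inl y ∈ (C (q x)).verts → y = x := by
    intro x y hy
    have h1 : Sum.inl y ∈ (C (q y)).verts := by have := hr (q y); rwa [hq] at this
    have h2 := hdis' _ _ _ hy h1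
    rw [← hq x, ← hq y, h2]
  have hqmem : ∀ x : Fin n, Sum.inl x ∈ (C (q x)).verts := by
    intro x
    have := hr (q x)
    rwa [hq] at this
  have hqinj : Function.Injective q := fun a b hab => by rw [← hq a, ← hq b, hab]
  have hlt : ∀ x : Fin 10, (x : ℕ) < n := fun x => by have := x.2; omega
  let S : Fin 10 → Finset (Fin 10) := fun x =>
    univ.filter (fun w => (Sum.inr w : Fin n ⊕ Fin 10) ∈ (C (q ⟨x, hlt x⟩)).verts)
  have hS : ∀ x w, w ∈ S x ↔ (Sum.inr w : Fin n ⊕ Fin 10) ∈ (C (q ⟨x, hlt x⟩)).verts := by
    intro x w
    simp [S]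
  have hpet : ∀ a b : Fin 10, pet a b ↔ petF a b = true := by
    intro a b
    constructor
    · rintro ⟨_, _, h⟩; exact h
    · intro h; exact ⟨a.2, b.2, h⟩
  refine core S ?_ ?_ ?_
  · intro u v huv
    rw [Finset.disjoint_left]
    intro w hu hv
    rw [hS] at hu hv
    have h := hqinj (hdis' _ _ _ hu hv)
    rw [Fin.mk.injEq] at h
    exact huv (Fin.ext h)
  · rintro x ⟨s, hs⟩
    rw [hS] at hs
    obtain ⟨c, hc, hxc⟩ := exists_nbr _ (hC _) (hqmem ⟨x, hlt x⟩) hs (by simp)
    rcases c with c | c
    · have := hqroot _ _ hc
      subst this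
      exact absurd hxc ((gr n).loopless.irrefl _)
    · exact ⟨c, (hS _ _).2 hc, (hpet _ _).1 hxc⟩
  · intro v w hvw
    have hvwne : v ≠ w := by
      rintro rfl
      rw [petF_irrefl] at hvw
      simp at hvw
    have hne : q ⟨v, hlt v⟩ ≠ q ⟨w, hlt w⟩ := by
      intro h
      have := hqinj h
      rw [Fin.mk.injEq] at this
      exact hvwne (Fin.ext this)
    obtain ⟨x, hx, y, hy, hxy⟩ := hadj _ _ (show (⊤ : SimpleGraph (Fin n)).Adj _ _ from
      (SimpleGraph.top_adj _ _).2 hne)
    rcases x with x | x
    · have h1 := hqroot _ _ hx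
      subst h1
      rcases y with y | y
      · have h2 := hqroot _ _ hy
        subst h2
        exact absurd ((hpet _ _).2 hvw) hxy.2
      · exact Or.inl ⟨y, (hS _ _).2 hy, (hpet _ _).1 hxy⟩
    · rcases y with y | y
      · have h2 := hqroot _ _ hy
        subst h2
        exact Or.inr (Or.inl ⟨x, (hS _ _).2 hx, (hpet _ _).1 hxy⟩)
      · exact Or.inr (Or.inr ⟨x, (hS _ _).2 hx, y, (hS _ _).2 hy, (hpet _ _).1 hxy⟩)

/-- The complete graph `K_n` is not weakly contractible for any `n ≥ 21`. -/
theorem result (n : ℕ) (hn : 21 ≤ n) : ¬ WeaklyContractible (⊤ : SimpleGraph (Fin n)) :=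
  fun h => not_minor n hn (h _ (gr n) (emb n) (hasScheme n))

end Pool.Agent.Results.MP_ed45fc_co.LargeCompleteGraphs
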